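import Mathlib
import Pool.Agent.Helper974.Diff
import Pool.Agent.Helper974.Ham
import Pool.Agent.Helper974.DiffPoly
import Pool.Agent.Helper974.Third

namespace Pool.Agent.Results.MP_1a410c_mp.Compatible

open Pool.Agent.Helper974.Diff Pool.Agent.Helper974.Ham Pool.Agent.Helper974.DiffPoly
  Pool.Agent.Helper974.Third

noncomputable section

/-! ### dual numbers -/

section Dual

variable {V : Type} [CommRing V] [Algebra ℝ V]

/-- dual numbers over `V` -/
abbrev Du (V : Type) : Type := TrivSqZeroExt V V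

/-- coefficientwise action of a derivation -/
def hat (d : Derivation ℝ V V) : Derivation ℝ (Du V) (Du V) :=
  Derivation.mk'
    { toFun := fun x => TrivSqZeroExt.inl (d x.fst) + TrivSqZeroExt.inr (d x.snd)
      map_add' := by
        intro x y
        ext <;> simp
      map_smul' := by
        intro c x
        ext <;> simp }
    (by
      intro x y
      ext
      · simp
      · simp
        ring)

@[simp] lemma fst_hat (d : Derivation ℝ V V) (x : Du V) : (hat d x).fst = d x.fst := by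
  simp [hat]

@[simp] lemma snd_hat (d : Derivation ℝ V V) (x : Du V) : (hat d x).snd = d x.snd := by
  simp [hat]

/-- the dual number `x + y ε` -/
def dn (x y : V) : Du V := TrivSqZeroExt.inl x + TrivSqZeroExt.inr y

omit [Algebra ℝ V] in
@[simp] lemma fst_dn (x y : V) : (dn x y).fst = x := by simp [dn]
omit [Algebra ℝ V] in
@[simp] lemma snd_dn (x y : V) : (dn x y).snd = y := by simp [dn]

lemma hat_dn (d : Derivation ℝ V V) (x y : V) : hat d (dn x y) = dn (d x) (d y) := by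
  ext <;> simp

omit [Algebra ℝ V] in
lemma dn_eta (x : Du V) : dn x.fst x.snd = x := by ext <;> simp

end Dual

section Ring

variable {R : Type} [CommRing R] [Algebra ℝ R] (D E : Derivation ℝ R R)

theorem E_Pa (h : ∀ x, E (D x) = D (E x)) (c w0 q1 : R) (hc : E c = -(c ^ 2 * w0)) :
    E (Pa D c q1) = dPa D c w0 q1 + Pa D c (E q1) := by
  simp only [Pa, dPa, Qa, dQa, h, Derivation.leibniz, map_add, smul_eq_mul, hc]
  ring

theorem E_Pb (h : ∀ x, E (D x) = D (E x)) (b c w0 w1 q0 q1 : R) (hc : E c = -(c ^ 2 * w0))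
    (hb : E b = w1) :
    E (Pb D b c q0 q1) = dPb D b c w0 w1 q0 q1 + Pb D b c (E q0) (E q1) := by
  have e1 : E (b * c ^ 2) = w1 * c ^ 2 - 2 * b * c ^ 3 * w0 := by
    simp only [Derivation.leibniz, Derivation.leibniz_pow, smul_eq_mul, nsmul_eq_mul, hc, hb]
    norm_num
    ring
  have e2 : E (Qb D b c (D q0) (D q1)) = dQb D b c w0 w1 (D q0) (D q1)
      + Qb D b c (D (E q0)) (D (E q1)) := by
    simp only [Qb, dQb, map_add, h, E.leibniz (b * c ^ 2), E.leibniz c, smul_eq_mul, hc, e1]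
    ring_nf
  simp only [Pb, dPb, h, e2, map_add]

theorem dPa_smul (s c w0 q1 : R) (hs : D s = 0) : dPa D c (s * w0) q1 = s * dPa D c w0 q1 := by
  simp only [dPa, dQa]
  have : -(c ^ 2 * (s * w0)) * D q1 = s * (-(c ^ 2 * w0) * D q1) := by ring
  rw [this]
  simp only [D.leibniz s, hs, smul_eq_mul, mul_zero, add_zero]

theorem dPb_smul (s b c w0 w1 q0 q1 : R) (hs : D s = 0) :
    dPb D b c (s * w0) (s * w1) q0 q1 = s * dPb D b c w0 w1 q0 q1 := by
  simp only [dPb, dQb]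
  have : -(c ^ 2 * (s * w0)) * D (D q0) + (s * w1 * c ^ 2 - 2 * b * c ^ 3 * (s * w0)) * D (D q1)
      + D ((s * w1 * c ^ 2 - 2 * b * c ^ 3 * (s * w0)) * D q1)
      = s * (-(c ^ 2 * w0) * D (D q0) + (w1 * c ^ 2 - 2 * b * c ^ 3 * w0) * D (D q1)
      + D ((w1 * c ^ 2 - 2 * b * c ^ 3 * w0) * D q1)) := by
    have e : (s * w1 * c ^ 2 - 2 * b * c ^ 3 * (s * w0)) * D q1
        = s * ((w1 * c ^ 2 - 2 * b * c ^ 3 * w0) * D q1) := by ring
    rw [e]
    simp only [D.leibniz s, hs, smul_eq_mul, mul_zero, add_zero]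
    ring
  rw [this]
  simp only [D.leibniz s, hs, smul_eq_mul, mul_zero, add_zero]

end Ring

/-! ### the lifted operator -/

section Lift

variable {V : Type} [CommRing V] [Algebra ℝ V] (A : DiffAlg 4 V) (c : V) (s0 s1 : ℝ)

def ch : Du V := dn c (-(A.u (2, 0) * c ^ 2))
def bh : Du V := dn (A.u (1, 0)) (A.u (3, 0))
def sh : Du V := dn (algebraMap ℝ V s0) (algebraMap ℝ V s1)
def q0h (q : Fin 4 → V) : Du V := dn (q 2) (q 0)
def q1h (q : Fin 4 → V) : Du V := dn (q 3) (q 1)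

/-- the lifted operator -/
def Op (q : Fin 4 → V) : Fin 4 → V :=
  ![(sh s0 s1 * Pa (hat A.D) (ch A c) (q1h q)).fst,
    (sh s0 s1 * Pb (hat A.D) (bh A) (ch A c) (q0h q) (q1h q)).fst,
    (sh s0 s1 * Pa (hat A.D) (ch A c) (q1h q)).snd,
    (sh s0 s1 * Pb (hat A.D) (bh A) (ch A c) (q0h q) (q1h q)).snd]

/-- its derivative -/
def dOp (K q : Fin 4 → V) : Fin 4 → V :=
  ![(sh s0 s1 * dPa (hat A.D) (ch A c) (dn (K 0) (K 2)) (q1h q)).fst,
    (sh s0 s1 * dPb (hat A.D) (bh A) (ch A c) (dn (K 0) (K 2)) (dn (K 1) (K 3))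
      (q0h q) (q1h q)).fst,
    (sh s0 s1 * dPa (hat A.D) (ch A c) (dn (K 0) (K 2)) (q1h q)).snd,
    (sh s0 s1 * dPb (hat A.D) (bh A) (ch A c) (dn (K 0) (K 2)) (dn (K 1) (K 3))
      (q0h q) (q1h q)).snd]

lemma hat_sh (d : Derivation ℝ V V) : hat d (sh s0 s1 : Du V) = 0 := by
  ext <;> simp [sh]

variable {c} (hc : ∀ a, A.pd a c = if a = (0, 0) then - c ^ 2 else 0)

include hc in
lemma ev_c (K : Fin 4 → V) : A.ev K c = - (c ^ 2 * K 0) := by
  have h1 : A.OrdLT 1 c := by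
    intro i j hj
    rw [hc, if_neg]
    intro h
    have := congrArg Prod.snd h
    simp at this
    omega
  have h2 : A.ev K c = ∑ j ∈ Finset.range 1, ∑ i : Fin 4, A.D^[j] (K i) * A.pd (i, j) c :=
    A.der_eq _ h1
  rw [h2]
  simp [Fin.sum_univ_four, hc]
  ring

lemma ev_u (K : Fin 4 → V) (i : Fin 4) : A.ev K (A.u (i, 0)) = K i := A.der_u _ _

include hc in
lemma hat_ch (K : Fin 4 → V) : hat (A.ev K) (ch A c) = -(ch A c ^ 2 * dn (K 0) (K 2)) := by
  ext
  · simp [ch, ev_c A hc K]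
  · simp [ch, ev_c A hc K, ev_u A K, Derivation.leibniz, Derivation.leibniz_pow]
    ring_nf

lemma hat_bh (K : Fin 4 → V) : hat (A.ev K) (bh A) = dn (K 1) (K 3) := by
  ext <;> simp [bh, ev_u A K]

lemma hat_comm (K : Fin 4 → V) (x : Du V) :
    hat (A.ev K) (hat A.D x) = hat A.D (hat (A.ev K) x) := by
  ext <;> simp [A.ev_D]

include hc in
theorem hev (K q : Fin 4 → V) (i : Fin 4) : A.ev K (Op A c s0 s1 q i)
    = dOp A c s0 s1 K q i + Op A c s0 s1 (fun j => A.ev K (q j)) i := by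
  have k1 := E_Pa (hat A.D) (hat (A.ev K)) (hat_comm A K) (ch A c) (dn (K 0) (K 2)) (q1h q)
    (hat_ch A hc K)
  have k2 := E_Pb (hat A.D) (hat (A.ev K)) (hat_comm A K) (bh A) (ch A c) (dn (K 0) (K 2))
    (dn (K 1) (K 3)) (q0h q) (q1h q) (hat_ch A hc K) (hat_bh A K)
  have m1 : hat (A.ev K) (q1h q) = q1h (fun j => A.ev K (q j)) := by rw [q1h, hat_dn]; rfl
  have m0 : hat (A.ev K) (q0h q) = q0h (fun j => A.ev K (q j)) := by rw [q0h, hat_dn]; rfl
  rw [m1] at k1 k2
  rw [m0] at k2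
  have l1 : hat (A.ev K) (sh s0 s1 * Pa (hat A.D) (ch A c) (q1h q))
      = sh s0 s1 * dPa (hat A.D) (ch A c) (dn (K 0) (K 2)) (q1h q)
        + sh s0 s1 * Pa (hat A.D) (ch A c) (q1h (fun j => A.ev K (q j))) := by
    rw [Derivation.leibniz, hat_sh, k1]
    simp [mul_add]
  have l2 : hat (A.ev K) (sh s0 s1 * Pb (hat A.D) (bh A) (ch A c) (q0h q) (q1h q))
      = sh s0 s1 * dPb (hat A.D) (bh A) (ch A c) (dn (K 0) (K 2)) (dn (K 1) (K 3))
          (q0h q) (q1h q)
        + sh s0 s1 * Pb (hat A.D) (bh A) (ch A c) (q0h (fun j => A.ev K (q j)))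
          (q1h (fun j => A.ev K (q j))) := by
    rw [Derivation.leibniz, hat_sh, k2]
    simp [mul_add]
  fin_cases i
  · have := congrArg TrivSqZeroExt.fst l1
    rw [fst_hat, TrivSqZeroExt.fst_add] at this
    exact this
  · have := congrArg TrivSqZeroExt.fst l2
    rw [fst_hat, TrivSqZeroExt.fst_add] at this
    exact this
  · have := congrArg TrivSqZeroExt.snd l1
    rw [snd_hat, TrivSqZeroExt.snd_add] at this
    exact this
  · have := congrArg TrivSqZeroExt.snd l2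
    rw [snd_hat, TrivSqZeroExt.snd_add] at this
    exact this

/-- the functional on dual numbers -/
def tau (s : Du V) : Du V →+ Fnl A where
  toFun x := cl A (s * x).snd
  map_zero' := by simp
  map_add' x y := by rw [mul_add, TrivSqZeroExt.snd_add, map_add]

lemma tau_D (s : Du V) (hs : hat A.D s = 0) (x : Du V) : tau A s (hat A.D x) = 0 := by
  have h : s * hat A.D x = hat A.D (s * x) := by
    rw [Derivation.leibniz, hs]
    simp
  show cl A (s * hat A.D x).snd = 0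
  rw [h, snd_hat, cl_D]

lemma pairing (p : Fin 4 → V) (s X Y : Du V) :
    ∑ i, cl A (p i * ![(s * X).fst, (s * Y).fst, (s * X).snd, (s * Y).snd] i)
      = tau A s (q0h p * X + q1h p * Y) := by
  have h : tau A s (q0h p * X + q1h p * Y)
      = cl A ((q0h p * (s * X) + q1h p * (s * Y)).snd) := by
    show cl A (s * (q0h p * X + q1h p * Y)).snd = _
    congr 2
    ring
  rw [h]
  rw [Fin.sum_univ_four, ← map_add, ← map_add, ← map_add]
  congr 1
  simp [q0h, q1h]
  ring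

theorem hskew (p q : Fin 4 → V) : ∑ i, cl A (p i * Op A c s0 s1 q i)
    = - ∑ i, cl A (q i * Op A c s0 s1 p i) := by
  simp only [Op]
  rw [pairing, pairing]
  exact skewP (hat A.D) _ (tau_D A _ (hat_sh s0 s1 A.D)) _ _ _ _ _ _

theorem htri (p q r : Fin 4 → V) : ∑ i, cl A (p i * dOp A c s0 s1 (Op A c s0 s1 q) r i)
      + ∑ i, cl A (q i * dOp A c s0 s1 (Op A c s0 s1 r) p i)
      + ∑ i, cl A (r i * dOp A c s0 s1 (Op A c s0 s1 p) q i) = 0 := by
  have hs := hat_sh s0 s1 A.D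
  have key : ∀ p q r : Fin 4 → V, ∑ i, cl A (p i * dOp A c s0 s1 (Op A c s0 s1 q) r i)
      = tau A (sh s0 s1 * sh s0 s1) (q0h p * dPa (hat A.D) (ch A c)
          (Pa (hat A.D) (ch A c) (q1h q)) (q1h r)
        + q1h p * dPb (hat A.D) (bh A) (ch A c) (Pa (hat A.D) (ch A c) (q1h q))
          (Pb (hat A.D) (bh A) (ch A c) (q0h q) (q1h q)) (q0h r) (q1h r)) := by
    intro p q r
    have e0 : dn (Op A c s0 s1 q 0) (Op A c s0 s1 q 2)
        = sh s0 s1 * Pa (hat A.D) (ch A c) (q1h q) := dn_eta _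
    have e1 : dn (Op A c s0 s1 q 1) (Op A c s0 s1 q 3)
        = sh s0 s1 * Pb (hat A.D) (bh A) (ch A c) (q0h q) (q1h q) := dn_eta _
    rw [dOp, e0, e1, pairing, dPa_smul _ _ _ _ _ hs, dPb_smul _ _ _ _ _ _ _ _ hs]
    show cl A (TrivSqZeroExt.snd (sh s0 s1 * (_ : Du V)))
      = cl A (TrivSqZeroExt.snd (sh s0 s1 * sh s0 s1 * (_ : Du V)))
    congr 2
    ring
  rw [key, key, key]
  refine trilinear (hat A.D) _ (tau_D A _ ?_) _ _ _ _ _ _ _ _
  rw [Derivation.leibniz, hs]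
  simp

omit [Algebra ℝ V] in
lemma fst_two : (2 : Du V).fst = 2 := by
  rw [← one_add_one_eq_two, TrivSqZeroExt.fst_add, TrivSqZeroExt.fst_one, one_add_one_eq_two]

omit [Algebra ℝ V] in
lemma snd_two : (2 : Du V).snd = 0 := by
  rw [← one_add_one_eq_two, TrivSqZeroExt.snd_add, TrivSqZeroExt.snd_one, add_zero]

/-- leading coefficients in the differential algebra -/
def gV (c : V) (s0 s1 : ℝ) : Fin 4 → Fin 4 → V :=
  let S0 := algebraMap ℝ V s0
  let S1 := algebraMap ℝ V s1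
  ![![0, 0, 0, S0 * c],
    ![0, 0, S0 * c, 2 * S0 * (A.u (1, 0) * c ^ 2)],
    ![0, S0 * c, 0, - S0 * (A.u (2, 0) * c ^ 2) + S1 * c],
    ![S0 * c, 2 * S0 * (A.u (1, 0) * c ^ 2), - S0 * (A.u (2, 0) * c ^ 2) + S1 * c,
      2 * (S0 * (A.u (3, 0) * c ^ 2 - 2 * A.u (1, 0) * A.u (2, 0) * c ^ 3)
        + S1 * (A.u (1, 0) * c ^ 2))]]

/-- potentials in the differential algebra -/
def hV (c : V) (s0 s1 : ℝ) : Fin 4 → Fin 4 → V :=
  let S0 := algebraMap ℝ V s0
  let S1 := algebraMap ℝ V s1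
  ![![0, 0, 0, S0 * c],
    ![0, 0, 0, S0 * (A.u (1, 0) * c ^ 2)],
    ![0, S0 * c, 0, - S0 * (A.u (2, 0) * c ^ 2) + S1 * c],
    ![0, S0 * (A.u (1, 0) * c ^ 2), 0,
      S0 * (A.u (3, 0) * c ^ 2 - 2 * A.u (1, 0) * A.u (2, 0) * c ^ 3)
        + S1 * (A.u (1, 0) * c ^ 2)]]

omit hc in
theorem Op_eq (c : V) (q : Fin 4 → V) (i : Fin 4) : Op A c s0 s1 q i
    = ∑ j, A.D (gV A c s0 s1 i j * A.D (A.D (q j)) + A.D (hV A c s0 s1 i j) * A.D (q j)) := by
  have d2 : A.D (2 : V) = 0 := by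
    have := A.D.map_natCast 2
    simpa using this
  have d3 : A.D (3 : V) = 0 := by
    have := A.D.map_natCast 3
    simpa using this
  fin_cases i
  · simp [Fin.sum_univ_four, gV, hV, Op, Pa, Qa, ch, q1h, sh]
    ring
  · simp [Fin.sum_univ_four, gV, hV, Op, Pb, Qb, ch, bh, q0h, q1h, sh,
      Derivation.leibniz_pow, d2, d3, fst_two, snd_two]
    ring
  · simp [Fin.sum_univ_four, gV, hV, Op, Pa, Qa, ch, q1h, sh,
      Derivation.leibniz_pow, d2, d3, fst_two, snd_two]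
    ring
  · simp [Fin.sum_univ_four, gV, hV, Op, Pb, Qb, ch, bh, q0h, q1h, sh,
      Derivation.leibniz_pow, d2, d3, fst_two, snd_two]
    ring

end Lift


/-! ### geometric Poisson structures of order three -/

section Geometry

variable {n : ℕ} {U : Dom n}

/-- Matrix differential operators of order at most three on differential polynomials:
`C i j s` is the coefficient of `D^s` in the entry `(i, j)`. -/
abbrev DOp (U : Dom n) : Type := Fin n → Fin n → Fin 4 → DP U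

/-- the operator applied to a vector -/
def act (C : DOp U) (q : Fin n → DP U) (i : Fin n) : DP U :=
  ∑ j, ∑ s : Fin 4, C i j s * DT^[s] (q j)

/-- the density `δF/δu^i C^{ij} δG/δu^j` of the bracket `{F, G}` of the functionals with
densities `F` and `G` -/
def br (C : DOp U) (F G : DP U) : DP U := ∑ i, var i F * act C (fun j => var j G) i

/-- total derivatives: densities whose class in `DP U / D (DP U)` is zero -/
def Exact (f : DP U) : Prop := ∃ h, f = DT h

/-- the bracket is a Poisson bracket on functionals: skew-symmetry and the Jacobi identity hold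
modulo total derivatives -/
def IsPoisson (C : DOp U) : Prop :=
  (∀ F G, Exact (br C F G + br C G F)) ∧
  ∀ F G H, Exact (br C (br C F G) H + br C (br C G H) F + br C (br C H F) G)

/-- the variational derivatives vanish on total derivatives, so that the bracket is defined on
functionals -/
theorem var_DT (i : Fin n) (f : DP U) : var i (DT f) = 0 := by
  rw [← E_eq, ← D_eq]
  exact (dpAlg U).E_D i f

/-- the leading matrix `g^{ij}` at a point -/
def lead (C : DOp U) (x : U.pts) : Matrix (Fin n) (Fin n) ℝ :=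
  Matrix.of fun i j => ev ((C i j 3).coeff 0) x

/-- geometric (homogeneous) Poisson structures of order three: homogeneous of differential degree
three (the coefficient of `D^s` has degree `3 - s`, where `u^i_j` has degree `j`), with
nondegenerate leading matrix, skew-symmetric and satisfying the Jacobi identity -/
def IsGeometric (C : DOp U) : Prop :=
  (∀ i j, ∀ s : Fin 4,
    MvPolynomial.IsWeightedHomogeneous (fun a : Fin n × ℕ => a.2 + 1) (C i j s)
      (3 - (s : ℕ))) ∧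
  (∀ x : U.pts, (lead C x).det ≠ 0) ∧ IsPoisson C

/-- the differential polynomial `c^{ij}_r(u) u^r_x` -/
def gam (c : Fin n → Fin n → Fin n → RegT U) (i j : Fin n) : DP U :=
  ∑ r, MvPolynomial.C (c i j r) * uP (r, 1)

/-- the coefficients of the operator `D ∘ (g^{ij} D + c^{ij}_r u^r_x) ∘ D` -/
def flatOp (g : Fin n → Fin n → RegT U) (c : Fin n → Fin n → Fin n → RegT U) : DOp U :=
  fun i j => ![0, DT (gam c i j), DT (MvPolynomial.C (g i j)) + gam c i j,
    MvPolynomial.C (g i j)]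

theorem act_flatOp (g : Fin n → Fin n → RegT U) (c : Fin n → Fin n → Fin n → RegT U)
    (q : Fin n → DP U) (i : Fin n) :
    act (flatOp g c) q i = ∑ j, (dpAlg U).D (MvPolynomial.C (g i j) *
      (dpAlg U).D ((dpAlg U).D (q j)) + gam c i j * (dpAlg U).D (q j)) := by
  refine Finset.sum_congr rfl fun j _ => ?_
  simp [Fin.sum_univ_four, flatOp, Function.iterate_succ, ← D_eq]
  ring

end Geometry

/-! ### the witness -/

section Witness

/-- the domain `u^1 > 0` (the coordinates are numbered from `0`) -/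
def U0 : Dom 4 := ⟨{x | 0 < x 0}, isOpen_lt continuous_const (continuous_apply 0)⟩

lemma an_inv : IsAn U0 (fun x : Fin 4 → ℝ => (x 0)⁻¹) := fun x hx =>
  (an_coord (U := U0) 0 x hx).inv (ne_of_gt hx)

/-- the function `1 / u^1` -/
def cR : RegT U0 := mk (fun x => (x 0)⁻¹) an_inv

lemma cR_mul : cR * coord 0 = 1 := by
  apply reg_ext
  intro x
  have : (0 : ℝ) < (x : Fin 4 → ℝ) 0 := x.2
  show ((x : Fin 4 → ℝ) 0)⁻¹ * (x : Fin 4 → ℝ) 0 = 1
  field_simp

lemma dR_cR (i : Fin 4) : dR i cR = if i = 0 then - cR ^ 2 else 0 := by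
  have h := congrArg (dR i) cR_mul
  rw [Derivation.leibniz, Derivation.map_one_eq_zero, dR_coord, smul_eq_mul, smul_eq_mul] at h
  have h2 : dR i cR = cR * (coord 0 * dR i cR) := by
    rw [← mul_assoc, cR_mul, one_mul]
  rw [h2, eq_neg_of_add_eq_zero_right h]
  split_ifs
  · ring
  · ring

/-- the leading coefficients -/
def gW (s0 s1 : ℝ) : Fin 4 → Fin 4 → RegT U0 :=
  let S0 := algebraMap ℝ (RegT U0) s0
  let S1 := algebraMap ℝ (RegT U0) s1
  ![![0, 0, 0, S0 * cR],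
    ![0, 0, S0 * cR, 2 * S0 * (coord 1 * cR ^ 2)],
    ![0, S0 * cR, 0, - S0 * (coord 2 * cR ^ 2) + S1 * cR],
    ![S0 * cR, 2 * S0 * (coord 1 * cR ^ 2), - S0 * (coord 2 * cR ^ 2) + S1 * cR,
      2 * (S0 * (coord 3 * cR ^ 2 - 2 * coord 1 * coord 2 * cR ^ 3)
        + S1 * (coord 1 * cR ^ 2))]]

/-- potentials of the coefficients `c^{ij}_r` -/
def hW (s0 s1 : ℝ) : Fin 4 → Fin 4 → RegT U0 :=
  let S0 := algebraMap ℝ (RegT U0) s0
  let S1 := algebraMap ℝ (RegT U0) s1
  ![![0, 0, 0, S0 * cR],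
    ![0, 0, 0, S0 * (coord 1 * cR ^ 2)],
    ![0, S0 * cR, 0, - S0 * (coord 2 * cR ^ 2) + S1 * cR],
    ![0, S0 * (coord 1 * cR ^ 2), 0,
      S0 * (coord 3 * cR ^ 2 - 2 * coord 1 * coord 2 * cR ^ 3) + S1 * (coord 1 * cR ^ 2)]]

/-- the coefficients `c^{ij}_r = ∂h^{ij}/∂u^r` -/
def cW (s0 s1 : ℝ) (i j r : Fin 4) : RegT U0 := dR r (hW s0 s1 i j)

/-- the family of structures -/
def W (s0 s1 : ℝ) : DOp U0 := flatOp (gW s0 s1) (cW s0 s1)

lemma D_C {n : ℕ} {U : Dom n} (h : RegT U) :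
    (dpAlg U).D (MvPolynomial.C h) = ∑ r, MvPolynomial.C (dR r h) * (dpAlg U).u (r, 1) := by
  have h1 : (dpAlg U).OrdLT 1 (MvPolynomial.C h) := by
    rintro i (_ | j) hj
    · omega
    · show MvPolynomial.pderiv (i, j) (MvPolynomial.C h) = 0
      exact MvPolynomial.pderiv_C
  have h2 : (dpAlg U).D (MvPolynomial.C h) = ∑ j ∈ Finset.range 1, ∑ i : Fin n,
      (dpAlg U).u (i, j + 1) * (dpAlg U).pd (i, j) (MvPolynomial.C h) := (dpAlg U).der_eq _ h1
  rw [h2, Finset.sum_range_one]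
  refine Finset.sum_congr rfl fun r _ => ?_
  show _ * mapD (dR r) (MvPolynomial.C h) = _
  rw [mapD_C, mul_comm]

lemma gam_W (s0 s1 : ℝ) (i j : Fin 4) :
    gam (cW s0 s1) i j = (dpAlg U0).D (MvPolynomial.C (hW s0 s1 i j)) := (D_C _).symm

lemma C_alg (r : ℝ) : (MvPolynomial.C (algebraMap ℝ (RegT U0) r) : DP U0)
    = algebraMap ℝ (DP U0) r := rfl

lemma C_coord (i : Fin 4) : (MvPolynomial.C (coord i) : DP U0) = (dpAlg U0).u (i, 0) := rfl

lemma C_gW (s0 s1 : ℝ) (i j : Fin 4) : MvPolynomial.C (gW s0 s1 i j)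
    = gV (dpAlg U0) (MvPolynomial.C cR) s0 s1 i j := by
  fin_cases i <;> fin_cases j <;>
  simp only [gW, gV, Fin.zero_eta, Fin.mk_one, Fin.reduceFinMk, Fin.isValue, Matrix.cons_val,
    map_zero, map_mul, map_add, map_sub, map_neg, map_pow, map_ofNat, C_alg, C_coord]

lemma C_hW (s0 s1 : ℝ) (i j : Fin 4) : MvPolynomial.C (hW s0 s1 i j)
    = hV (dpAlg U0) (MvPolynomial.C cR) s0 s1 i j := by
  fin_cases i <;> fin_cases j <;>
  simp only [hW, hV, Fin.zero_eta, Fin.mk_one, Fin.reduceFinMk, Fin.isValue, Matrix.cons_val,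
    map_zero, map_mul, map_add, map_sub, map_neg, map_pow, map_ofNat, C_alg, C_coord]

theorem act_W (s0 s1 : ℝ) (q : Fin 4 → DP U0) (i : Fin 4) :
    act (W s0 s1) q i = Op (dpAlg U0) (MvPolynomial.C cR) s0 s1 q i := by
  rw [W, act_flatOp, Op_eq]
  simp only [gam_W, C_gW, C_hW]


lemma hc0 (a : Fin 4 × ℕ) : (dpAlg U0).pd a (MvPolynomial.C cR)
    = if a = (0, 0) then - (MvPolynomial.C cR) ^ 2 else 0 := by
  obtain ⟨i, _ | j⟩ := a
  · show mapD (dR i) (MvPolynomial.C cR) = _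
    rw [mapD_C, dR_cR]
    by_cases h : i = 0
    · subst h; simp
    · have : ((i, 0) : Fin 4 × ℕ) ≠ (0, 0) := fun e => h (congrArg Prod.fst e)
      rw [if_neg h, if_neg this, map_zero]
  · have : ((i, j + 1) : Fin 4 × ℕ) ≠ (0, 0) := by
      intro e
      have := congrArg Prod.snd e
      simp at this
    rw [if_neg this]
    exact MvPolynomial.pderiv_C

lemma exact_iff {n : ℕ} {U : Dom n} (f : DP U) :
    Exact f ↔ cl (dpAlg U) f = 0 := by
  rw [cl_eq_zero]
  constructor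
  · rintro ⟨h, e⟩
    exact ⟨h, by rw [D_eq, e]⟩
  · rintro ⟨h, e⟩
    exact ⟨h, by rw [← D_eq, e]⟩

theorem cl_br (s0 s1 : ℝ) (f g : DP U0) :
    cl (dpAlg U0) (br (W s0 s1) f g)
      = ∑ i, cl (dpAlg U0) ((dpAlg U0).E i f
          * Op (dpAlg U0) (MvPolynomial.C cR) s0 s1 (fun j => (dpAlg U0).E j g) i) := by
  simp only [br, ← E_eq, act_W, map_sum]

theorem poisson_W (s0 s1 : ℝ) : IsPoisson (W s0 s1) := by
  constructor
  · intro F G
    rw [exact_iff, map_add, cl_br, cl_br, hskew (dpAlg U0) s0 s1, neg_add_cancel]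
  · intro F G H
    rw [exact_iff, map_add, map_add]
    exact jacobi_of (dpAlg U0) (Op (dpAlg U0) (MvPolynomial.C cR) s0 s1)
      (dOp (dpAlg U0) (MvPolynomial.C cR) s0 s1) (hev (dpAlg U0) s0 s1 hc0)
      (hskew (dpAlg U0) s0 s1) (htri (dpAlg U0) s0 s1) F G H (br (W s0 s1)) (cl_br s0 s1)

/-! homogeneity -/

lemma hom_C {n : ℕ} {U : Dom n} (h : RegT U) :
    MvPolynomial.IsWeightedHomogeneous (fun a : Fin n × ℕ => a.2 + 1)
      (MvPolynomial.C h : DP U) 0 := MvPolynomial.isWeightedHomogeneous_C _ _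

lemma hom_u {n : ℕ} {U : Dom n} (r : Fin n) (j : ℕ) :
    MvPolynomial.IsWeightedHomogeneous (fun a : Fin n × ℕ => a.2 + 1)
      ((dpAlg U).u (r, j + 1)) (j + 1) :=
  MvPolynomial.isWeightedHomogeneous_X (RegT U) (fun a : Fin n × ℕ => a.2 + 1) (r, j)

lemma hom_gam {n : ℕ} {U : Dom n} (c : Fin n → RegT U) :
    MvPolynomial.IsWeightedHomogeneous (fun a : Fin n × ℕ => a.2 + 1)
      (∑ r, MvPolynomial.C (c r) * (dpAlg U).u (r, 1)) 1 := by
  apply MvPolynomial.IsWeightedHomogeneous.sum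
  intro r _
  have := (hom_C (c r)).mul (hom_u (U := U) r 0)
  simpa using this

lemma hom_D_gam {n : ℕ} {U : Dom n} (c : Fin n → RegT U) :
    MvPolynomial.IsWeightedHomogeneous (fun a : Fin n × ℕ => a.2 + 1)
      ((dpAlg U).D (∑ r, MvPolynomial.C (c r) * (dpAlg U).u (r, 1))) 2 := by
  rw [map_sum]
  apply MvPolynomial.IsWeightedHomogeneous.sum
  intro r _
  rw [Derivation.leibniz, smul_eq_mul, smul_eq_mul, (dpAlg U).D_u, D_C]
  apply MvPolynomial.IsWeightedHomogeneous.add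
  · have := (hom_C (c r)).mul (hom_u (U := U) r 1)
    simpa using this
  · have := (hom_u (U := U) r 0).mul (hom_gam (fun k => dR k (c r)))
    simpa using this

theorem hom_flatOp {n : ℕ} {U : Dom n} (g : Fin n → Fin n → RegT U)
    (c : Fin n → Fin n → Fin n → RegT U) (i j : Fin n) (s : Fin 4) :
    MvPolynomial.IsWeightedHomogeneous (fun a : Fin n × ℕ => a.2 + 1) (flatOp g c i j s)
      (3 - (s : ℕ)) := by
  fin_cases s
  · exact MvPolynomial.isWeightedHomogeneous_zero _ _ _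
  · show MvPolynomial.IsWeightedHomogeneous _ (DT (gam c i j)) 2
    rw [← D_eq]
    exact hom_D_gam _
  · show MvPolynomial.IsWeightedHomogeneous _
      (DT (MvPolynomial.C (g i j)) + gam c i j) 1
    rw [← D_eq, D_C]
    exact (hom_gam _).add (hom_gam _)
  · exact hom_C _

/-! the leading matrix -/

lemma lead_W (s0 s1 : ℝ) (x : U0.pts) (i j : Fin 4) : lead (W s0 s1) x i j = ev (gW s0 s1 i j) x := by
  show ev ((MvPolynomial.C (gW s0 s1 i j) : DP U0).coeff 0) x = _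
  rw [MvPolynomial.coeff_C, if_pos rfl]

/-- the value of `1/u^1`, and of the other entries -/
lemma lead_W_eq (s0 s1 : ℝ) (x : U0.pts) : lead (W s0 s1) x
    = !![0, 0, 0, s0 * ev cR x;
         0, 0, s0 * ev cR x, 2 * s0 * (x.1 1 * ev cR x ^ 2);
         0, s0 * ev cR x, 0, - s0 * (x.1 2 * ev cR x ^ 2) + s1 * ev cR x;
         s0 * ev cR x, 2 * s0 * (x.1 1 * ev cR x ^ 2),
           - s0 * (x.1 2 * ev cR x ^ 2) + s1 * ev cR x,
           2 * (s0 * (x.1 3 * ev cR x ^ 2 - 2 * x.1 1 * x.1 2 * ev cR x ^ 3)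
             + s1 * (x.1 1 * ev cR x ^ 2))] := by
  ext i j
  rw [lead_W]
  fin_cases i <;> fin_cases j <;> rfl


lemma cR_pos (x : U0.pts) : 0 < ev cR x := by
  have : (0 : ℝ) < (x : Fin 4 → ℝ) 0 := x.2
  show 0 < ((x : Fin 4 → ℝ) 0)⁻¹
  positivity

lemma det_lead (s1 : ℝ) (x : U0.pts) : (lead (W 1 s1) x).det ≠ 0 := by
  rw [lead_W_eq]
  have h : ∀ c e k l : ℝ, (!![0, 0, 0, c; 0, 0, c, e; 0, c, 0, k; c, e, k, l] :
      Matrix (Fin 4) (Fin 4) ℝ).det = c ^ 4 := by
    intro c e k l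
    simp [Matrix.det_succ_row_zero, Fin.sum_univ_succ, Fin.succAbove]
    ring
  simp only [one_mul]
  rw [h]
  exact pow_ne_zero 4 (cR_pos x).ne'

theorem geometric_W (s1 : ℝ) : IsGeometric (W 1 s1) :=
  ⟨hom_flatOp _ _, det_lead s1, poisson_W 1 s1⟩

lemma gW_lin (s1 t1 t : ℝ) (i j : Fin 4) :
    gW 1 s1 i j + t • gW 1 t1 i j = gW (1 + t) (s1 + t * t1) i j := by
  rw [Algebra.smul_def]
  fin_cases i <;> fin_cases j <;>
  simp only [gW, Fin.zero_eta, Fin.mk_one, Fin.reduceFinMk, Fin.isValue, Matrix.cons_val,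
    map_add, map_mul, map_one] <;> ring

lemma hW_lin (s1 t1 t : ℝ) (i j : Fin 4) :
    hW 1 s1 i j + t • hW 1 t1 i j = hW (1 + t) (s1 + t * t1) i j := by
  rw [Algebra.smul_def]
  fin_cases i <;> fin_cases j <;>
  simp only [hW, Fin.zero_eta, Fin.mk_one, Fin.reduceFinMk, Fin.isValue, Matrix.cons_val,
    map_add, map_mul, map_one] <;> ring

lemma C_smul' (t : ℝ) (h : RegT U0) :
    (MvPolynomial.C (t • h) : DP U0) = t • MvPolynomial.C h := by
  rw [Algebra.smul_def, Algebra.smul_def, map_mul]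
  rfl

lemma W_lin (s1 t1 t : ℝ) : W 1 s1 + t • W 1 t1 = W (1 + t) (s1 + t * t1) := by
  have hg : ∀ i j, gam (cW (1 + t) (s1 + t * t1)) i j
      = gam (cW 1 s1) i j + t • gam (cW 1 t1) i j := by
    intro i j
    rw [gam_W, gam_W, gam_W, ← hW_lin, map_add, map_add, C_smul', Derivation.map_smul]
  funext i j s
  show flatOp _ _ i j s + t • flatOp _ _ i j s = flatOp _ _ i j s
  fin_cases s
  · simp [flatOp]
  · simp only [flatOp, Fin.mk_one, Fin.isValue, Matrix.cons_val_one, Matrix.cons_val_zero,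
      ← D_eq, hg, map_add, Derivation.map_smul]
  · simp only [flatOp, Fin.reduceFinMk, Matrix.cons_val, hg, ← gW_lin, map_add, ← D_eq,
      C_smul', Derivation.map_smul, smul_add]
    abel
  · simp only [flatOp, Fin.reduceFinMk, Matrix.cons_val, ← gW_lin, map_add, C_smul']

end Witness

/-- In the coordinates `u` the operator is `D ∘ (g^{ij} D + c^{ij}_r u^r_x) ∘ D` (so that these
are flat coordinates of the connection), and some `c^{ij}_r` vanishes nowhere: the structure is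
not Darboux-Poisson, on any open subset. -/
def NotDarboux {n : ℕ} {U : Dom n} (C : DOp U) : Prop :=
  ∃ g c, C = flatOp g c ∧ ∃ i j r, ∀ x : U.pts, ev (c i j r) x ≠ 0

theorem notDarboux_W (s1 : ℝ) : NotDarboux (W 1 s1) := by
  refine ⟨gW 1 s1, cW 1 s1, rfl, 0, 3, 0, fun x => ?_⟩
  have : cW 1 s1 0 3 0 = - cR ^ 2 := by
    show dR 0 (algebraMap ℝ (RegT U0) 1 * cR) = _
    rw [map_one, one_mul, dR_cR, if_pos rfl]
  rw [this]
  show - (ev cR x) ^ 2 ≠ 0
  have := cR_pos x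
  have h2 : (ev cR x) ^ 2 ≠ 0 := pow_ne_zero 2 this.ne'
  exact neg_ne_zero.2 h2

/-- There are two compatible geometric Poisson structures of order three, not multiples of each
other, none of which is Darboux-Poisson. -/
theorem result : ∃ (n : ℕ) (U : Dom n) (P₁ P₂ : DOp U),
    U.pts.Nonempty ∧ IsGeometric P₁ ∧ IsGeometric P₂ ∧
    (∀ t : ℝ, P₂ ≠ t • P₁ ∧ P₁ ≠ t • P₂) ∧ (∀ t : ℝ, IsPoisson (P₁ + t • P₂)) ∧
    NotDarboux P₁ ∧ NotDarboux P₂ ∧
    ∀ x : U.pts, ((lead P₁ x)⁻¹ * lead P₂ x - 1) ^ 2 = 0 ∧ (lead P₁ x)⁻¹ * lead P₂ x ≠ 1 := by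
  have hx : (fun _ => 1 : Fin 4 → ℝ) ∈ U0.pts := show (0 : ℝ) < 1 by norm_num
  have hc : ev cR ⟨_, hx⟩ = 1 := show ((1 : ℝ))⁻¹ = 1 by norm_num
  have l1 : ∀ s1, lead (W 1 s1) ⟨_, hx⟩ 0 3 = 1 := by
    intro s1
    rw [lead_W_eq, hc]
    simp
  have l2 : ∀ s1, lead (W 1 s1) ⟨_, hx⟩ 2 3 = -1 + s1 := by
    intro s1
    rw [lead_W_eq, hc]
    simp
  have hs : ∀ (t : ℝ) (C : DOp U0) x i j, lead (t • C) x i j = t * lead C x i j := by
    intro t C x i j
    show ev ((t • (C i j 3)).coeff 0) x = t * ev ((C i j 3).coeff 0) x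
    rw [MvPolynomial.coeff_smul]
    rfl
  refine ⟨4, U0, W 1 0, W 1 1, ⟨_, hx⟩, geometric_W 0, geometric_W 1, ?_, ?_, notDarboux_W 0,
    notDarboux_W 1, ?_⟩
  · intro t
    constructor
    · intro h
      have h1 := l1 1
      have h2 := l2 1
      rw [h, hs, l1] at h1
      rw [h, hs, l2] at h2
      linarith
    · intro h
      have h1 := l1 0
      have h2 := l2 0
      rw [h, hs, l1] at h1
      rw [h, hs, l2] at h2
      linarith
  · intro t
    rw [W_lin]
    exact poisson_W _ _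
  · intro x
    have hJ : lead (W 1 1) x = lead (W 1 0) x
        + lead (W 1 0) x * !![0, 0, 1, 0; 0, 0, 0, 1; 0, 0, 0, 0; 0, 0, 0, 0] := by
      rw [lead_W_eq, lead_W_eq]
      ext i j
      fin_cases i <;> fin_cases j <;> simp [Matrix.mul_apply, Fin.sum_univ_four] <;> ring
    have hL : (lead (W 1 0) x)⁻¹ * lead (W 1 1) x
        = 1 + !![0, 0, 1, 0; 0, 0, 0, 1; 0, 0, 0, 0; 0, 0, 0, 0] := by
      have hu : IsUnit (lead (W 1 0) x).det := (det_lead 0 x).isUnit
      rw [hJ, mul_add, ← mul_assoc, Matrix.nonsing_inv_mul _ hu, one_mul]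
    rw [hL]
    constructor
    · rw [add_sub_cancel_left, pow_two]
      ext i j
      fin_cases i <;> fin_cases j <;> simp [Matrix.mul_apply, Fin.sum_univ_four]
    · intro h
      have := congrFun (congrFun h 0) 2
      simp at this

end

end Pool.Agent.Results.MP_1a410c_mp.Compatible

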